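import Mathlib

/-! Asynchronous `ℓ^p`-energy minimisation dynamics on a finite graph with `m + 2` vertices. -/

namespace Pool.Agent.R957.LpEn

open MeasureTheory
open scoped ENNReal

open Classical in
/-- `Ψ(y) = ∑_{w ∼ v} |y - f w|^p` -/
noncomputable def Psi {m : ℕ} (G : SimpleGraph (Fin (m + 2))) (p : ℝ) (f : Fin (m + 2) → ℝ)
    (v : Fin (m + 2)) (y : ℝ) : ℝ :=
  ∑ w, if G.Adj v w then |y - f w| ^ p else 0

/-- the minimiser of `Ψ` -/
noncomputable def newVal {m : ℕ} (G : SimpleGraph (Fin (m + 2))) (p : ℝ) (f : Fin (m + 2) → ℝ)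
    (v : Fin (m + 2)) : ℝ :=
  Classical.epsilon fun y => ∀ z, Psi G p f v y ≤ Psi G p f v z

/-- one update at `v` -/
noncomputable def step {m : ℕ} (G : SimpleGraph (Fin (m + 2))) (p : ℝ) (f : Fin (m + 2) → ℝ)
    (v : Fin (m + 2)) : Fin (m + 2) → ℝ :=
  Function.update f v (newVal G p f v)

/-- the profile after `t` updates; `om t` is the vertex updated at step `t + 1` -/
noncomputable def traj {m : ℕ} (G : SimpleGraph (Fin (m + 2))) (p : ℝ) (f0 : Fin (m + 2) → ℝ)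
    (om : ℕ → Fin (m + 2)) : ℕ → Fin (m + 2) → ℝ
  | 0 => f0
  | t + 1 => step G p (traj G p f0 om t) (om t)

/-- oscillation -/
noncomputable def osc {m : ℕ} (f : Fin (m + 2) → ℝ) : ℝ := (⨆ v, f v) - ⨅ v, f v

/-- the `ε`-consensus time -/
noncomputable def tau {m : ℕ} (G : SimpleGraph (Fin (m + 2))) (p : ℝ) (f0 : Fin (m + 2) → ℝ)
    (eps : ℝ) (om : ℕ → Fin (m + 2)) : ℝ≥0∞ :=
  ⨅ (t : ℕ) (_ : osc (traj G p f0 om t) ≤ eps), (t : ℝ≥0∞)

/-- law of an i.i.d. sequence of uniform vertices -/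
noncomputable def seqLaw (m : ℕ) : Measure (ℕ → Fin (m + 2)) :=
  Measure.infinitePi fun _ => (PMF.uniformOfFintype (Fin (m + 2))).toMeasure

/-- expected consensus time -/
noncomputable def ETau {m : ℕ} (G : SimpleGraph (Fin (m + 2))) (p : ℝ) (f0 : Fin (m + 2) → ℝ)
    (eps : ℝ) : ℝ≥0∞ :=
  ∫⁻ om, tau G p f0 eps om ∂(seqLaw m)

end Pool.Agent.R957.LpEn
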