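import Mathlib
import Pool.Agent.R957.LpEn.Defs

namespace Pool.Agent.R957.LpEn

open Filter

variable {m : ℕ}

/-- signed power `|x|^{p-2} x` -/
noncomputable def phi (p x : ℝ) : ℝ := |x| ^ (p - 2) * x

lemma phi_of_nonneg {p x : ℝ} (hp : 1 < p) (hx : 0 ≤ x) : phi p x = x ^ (p - 1) := by
  unfold phi
  rcases hx.eq_or_lt with h | h
  · rw [← h, mul_zero, Real.zero_rpow (by linarith)]
  · rw [abs_of_pos h]
    have : x ^ (p - 1) = x ^ (p - 2) * x ^ (1 : ℝ) := by
      rw [← Real.rpow_add h]; congr 1; ring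
    rw [this, Real.rpow_one]

lemma phi_neg (p x : ℝ) : phi p (-x) = - phi p x := by
  unfold phi; rw [abs_neg]; ring

lemma phi_strictMono {p : ℝ} (hp : 1 < p) : StrictMono (phi p) := by
  have hpos : ∀ x y : ℝ, 0 ≤ x → x < y → phi p x < phi p y := by
    intro x y hx hxy
    rw [phi_of_nonneg hp hx, phi_of_nonneg hp (hx.trans hxy.le)]
    exact Real.rpow_lt_rpow hx hxy (by linarith)
  intro x y hxy
  rcases le_or_gt 0 x with hx | hx
  · exact hpos x y hx hxy
  · rcases le_or_gt y 0 with hy | hy
    · have h := hpos (-y) (-x) (by linarith) (by linarith)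
      rw [phi_neg, phi_neg] at h
      linarith
    · have h1 := hpos 0 (-x) le_rfl (by linarith)
      have h2 := hpos 0 y le_rfl hy
      rw [phi_neg] at h1
      have h0 : phi p 0 = 0 := by simp [phi]
      rw [h0] at h1 h2
      linarith

lemma phi_zero (p : ℝ) : phi p 0 = 0 := by simp [phi]

lemma phi_two (x : ℝ) : phi 2 x = x := by simp [phi]

lemma Psi_cont (G : SimpleGraph (Fin (m + 2))) {p : ℝ} (hp : 1 < p) (f : Fin (m + 2) → ℝ)
    (v : Fin (m + 2)) : Continuous (Psi G p f v) := by
  unfold Psi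
  apply continuous_finsetSum
  intro w _
  split_ifs
  · exact ((continuous_id.sub continuous_const).abs).rpow_const fun x => Or.inr (by linarith)
  · exact continuous_const

lemma Psi_tendsto (G : SimpleGraph (Fin (m + 2))) {p : ℝ} (hp : 1 < p) (f : Fin (m + 2) → ℝ)
    (v w : Fin (m + 2)) (hw : G.Adj v w) : Tendsto (Psi G p f v) (cocompact ℝ) atTop := by
  have h1 : ∀ y, |y - f w| ^ p ≤ Psi G p f v y := by
    intro y
    classical
    unfold Psi
    have h := Finset.single_le_sum (s := Finset.univ)
      (f := fun w => if G.Adj v w then |y - f w| ^ p else 0)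
      (fun i _ => by
        split_ifs
        · positivity
        · exact le_refl _) (Finset.mem_univ w)
    simpa [hw] using h
  refine tendsto_atTop_mono h1 ?_
  refine (tendsto_rpow_atTop (by linarith : (0 : ℝ) < p)).comp ?_
  have h2 : ∀ y : ℝ, |y| + (- |f w|) ≤ |y - f w| := by
    intro y
    have := abs_sub_abs_le_abs_sub y (f w)
    linarith
  refine tendsto_atTop_mono h2 ?_
  exact tendsto_atTop_add_const_right _ _ tendsto_norm_cocompact_atTop

lemma newVal_spec (G : SimpleGraph (Fin (m + 2))) {p : ℝ} (hp : 1 < p) (f : Fin (m + 2) → ℝ)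
    (v w : Fin (m + 2)) (hw : G.Adj v w) (z : ℝ) :
    Psi G p f v (newVal G p f v) ≤ Psi G p f v z := by
  have h := (Psi_cont G hp f v).exists_forall_le (Psi_tendsto G hp f v w hw)
  exact Classical.epsilon_spec h z

open Classical in
lemma Psi_deriv (G : SimpleGraph (Fin (m + 2))) {p : ℝ} (hp : 1 < p) (f : Fin (m + 2) → ℝ)
    (v : Fin (m + 2)) (y : ℝ) : HasDerivAt (Psi G p f v)
      (p * ∑ w, if G.Adj v w then phi p (y - f w) else 0) y := by
  unfold Psi
  rw [Finset.mul_sum]
  apply HasDerivAt.fun_sum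
  intro w _
  split_ifs
  · have h := (hasDerivAt_abs_rpow (y - f w) hp).comp y ((hasDerivAt_id y).sub_const (f w))
    simp only [mul_one] at h
    unfold phi
    rw [← mul_assoc]
    exact h
  · rw [mul_zero]; exact hasDerivAt_const _ _

open Classical in
lemma first_order (G : SimpleGraph (Fin (m + 2))) {p : ℝ} (hp : 1 < p) (f : Fin (m + 2) → ℝ)
    (v w : Fin (m + 2)) (hw : G.Adj v w) :
    (∑ w, if G.Adj v w then phi p (newVal G p f v - f w) else 0) = 0 := by
  have hmin : IsLocalMin (Psi G p f v) (newVal G p f v) :=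
    Filter.Eventually.of_forall fun z => newVal_spec G hp f v w hw z
  have h := hmin.hasDerivAt_eq_zero (Psi_deriv G hp f v _)
  rcases mul_eq_zero.1 h with h1 | h1
  · linarith
  · exact h1

open Classical in
lemma newVal_le (G : SimpleGraph (Fin (m + 2))) {p : ℝ} (hp : 1 < p) (f : Fin (m + 2) → ℝ)
    (v w : Fin (m + 2)) (hw : G.Adj v w) (c : ℝ)
    (hc : 0 ≤ ∑ w, if G.Adj v w then phi p (c - f w) else 0) : newVal G p f v ≤ c := by
  by_contra hcon
  push Not at hcon
  have h1 := first_order G hp f v w hw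
  have h2 : (∑ w, if G.Adj v w then phi p (c - f w) else 0)
      < ∑ w, if G.Adj v w then phi p (newVal G p f v - f w) else 0 := by
    apply Finset.sum_lt_sum
    · intro i _
      split_ifs
      · exact (phi_strictMono hp).monotone (by linarith)
      · exact le_refl _
    · refine ⟨w, Finset.mem_univ _, ?_⟩
      rw [if_pos hw, if_pos hw]
      exact phi_strictMono hp (by linarith)
  linarith

open Classical in
lemma le_newVal (G : SimpleGraph (Fin (m + 2))) {p : ℝ} (hp : 1 < p) (f : Fin (m + 2) → ℝ)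
    (v w : Fin (m + 2)) (hw : G.Adj v w) (c : ℝ)
    (hc : (∑ w, if G.Adj v w then phi p (c - f w) else 0) ≤ 0) : c ≤ newVal G p f v := by
  by_contra hcon
  push Not at hcon
  have h1 := first_order G hp f v w hw
  have h2 : (∑ w, if G.Adj v w then phi p (newVal G p f v - f w) else 0)
      < ∑ w, if G.Adj v w then phi p (c - f w) else 0 := by
    apply Finset.sum_lt_sum
    · intro i _
      split_ifs
      · exact (phi_strictMono hp).monotone (by linarith)
      · exact le_refl _
    · refine ⟨w, Finset.mem_univ _, ?_⟩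
      rw [if_pos hw, if_pos hw]
      exact phi_strictMono hp (by linarith)
  linarith

/-- the minimiser is unique -/
lemma newVal_unique (G : SimpleGraph (Fin (m + 2))) {p : ℝ} (hp : 1 < p) (f : Fin (m + 2) → ℝ)
    (v w : Fin (m + 2)) (hw : G.Adj v w) (y : ℝ) (hy : ∀ z, Psi G p f v y ≤ Psi G p f v z) :
    y = newVal G p f v := by
  classical
  have hmin : IsLocalMin (Psi G p f v) y := Filter.Eventually.of_forall hy
  have h := hmin.hasDerivAt_eq_zero (Psi_deriv G hp f v _)
  have h0 : (∑ w, if G.Adj v w then phi p (y - f w) else 0) = 0 := by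
    rcases mul_eq_zero.1 h with h1 | h1
    · linarith
    · exact h1
  exact le_antisymm (le_newVal G hp f v w hw y h0.le) (newVal_le G hp f v w hw y h0.ge)

lemma osc_le_iff (f : Fin (m + 2) → ℝ) (c : ℝ) : osc f ≤ c ↔ ∀ u w, f u - f w ≤ c := by
  unfold osc
  constructor
  · intro h u w
    have h1 : f u ≤ ⨆ v, f v := le_ciSup (Set.finite_range f).bddAbove u
    have h2 : ⨅ v, f v ≤ f w := ciInf_le (Set.finite_range f).bddBelow w
    linarith
  · intro h
    obtain ⟨u, hu⟩ := exists_eq_ciSup_of_finite (f := f)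
    obtain ⟨w, hw⟩ := exists_eq_ciInf_of_finite (f := f)
    rw [← hu, ← hw]
    exact h u w

end Pool.Agent.R957.LpEn
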