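import Mathlib
import Pool.Agent.R957.LpEn.Defs

namespace Pool.Agent.R957.LpEn

open MeasureTheory
open scoped ENNReal

variable {m : ℕ}

instance : IsProbabilityMeasure (seqLaw m) := by unfold seqLaw; infer_instance

/-- prepend a vertex -/
def cons (v : Fin (m + 2)) (om : ℕ → Fin (m + 2)) : ℕ → Fin (m + 2)
  | 0 => v
  | t + 1 => om t

lemma traj_cons (G : SimpleGraph (Fin (m + 2))) (p : ℝ) (f : Fin (m + 2) → ℝ) (v : Fin (m + 2))
    (om : ℕ → Fin (m + 2)) (t : ℕ) :
    traj G p f (cons v om) (t + 1) = traj G p (step G p f v) om t := by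
  induction t with
  | zero => rfl
  | succ t ih =>
    change step G p (traj G p f (cons v om) (t + 1)) (cons v om (t + 1)) = _
    rw [ih]; rfl

lemma meas_cons : Measurable (fun x : Fin (m + 2) × (ℕ → Fin (m + 2)) => cons x.1 x.2) := by
  rw [measurable_pi_iff]
  intro a
  cases a with
  | zero => exact measurable_fst
  | succ t => exact (measurable_pi_apply t).comp measurable_snd

lemma map_cons : ((PMF.uniformOfFintype (Fin (m + 2))).toMeasure.prod (seqLaw m)).map
    (fun x : Fin (m + 2) × (ℕ → Fin (m + 2)) => cons x.1 x.2) = seqLaw m := by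
  unfold seqLaw
  apply Measure.eq_infinitePi
  intro s t ht
  classical
  -- extend to a range
  obtain ⟨N, hN⟩ : ∃ N, s ⊆ Finset.range (N + 1) := by
    refine ⟨s.sup id, fun i hi => ?_⟩
    rw [Finset.mem_range]
    exact Nat.lt_succ_of_le (Finset.le_sup (f := id) hi)
  set t' : ℕ → Set (Fin (m + 2)) := fun i => if i ∈ s then t i else Set.univ with ht'
  have h1 : Set.pi (s : Set ℕ) t = Set.pi (Finset.range (N + 1) : Set ℕ) t' := by
    ext x
    simp only [Set.mem_pi, Finset.mem_coe]
    constructor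
    · intro h i _
      simp only [ht']
      split_ifs with hi
      · exact h i hi
      · trivial
    · intro h i hi
      have := h i (hN hi)
      simp only [ht', if_pos hi] at this
      exact this
  have h2 : ∏ i ∈ s, (PMF.uniformOfFintype (Fin (m + 2))).toMeasure (t i)
      = ∏ i ∈ Finset.range (N + 1), (PMF.uniformOfFintype (Fin (m + 2))).toMeasure (t' i) := by
    rw [← Finset.prod_subset hN]
    · apply Finset.prod_congr rfl
      intro i hi
      simp only [ht', if_pos hi]
    · intro i _ hi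
      simp only [ht', if_neg hi, measure_univ]
  rw [h1, h2, Measure.map_apply meas_cons]
  · have h3 : (fun x : Fin (m + 2) × (ℕ → Fin (m + 2)) => cons x.1 x.2) ⁻¹'
        (Set.pi (Finset.range (N + 1) : Set ℕ) t')
        = t' 0 ×ˢ Set.pi (Finset.range N : Set ℕ) (fun i => t' (i + 1)) := by
      ext x
      simp only [Set.mem_preimage, Set.mem_pi, Finset.mem_coe, Finset.mem_range, Set.mem_prod]
      constructor
      · intro h
        exact ⟨h 0 (by omega), fun i hi => h (i + 1) (by omega)⟩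
      · rintro ⟨h0, h⟩ i hi
        cases i with
        | zero => exact h0
        | succ i => exact h i (by omega)
    rw [h3, Measure.prod_prod, Finset.prod_range_succ', mul_comm]
    congr 1
    rw [Measure.infinitePi_pi]
    intro i _
    exact MeasurableSet.of_discrete
  · exact MeasurableSet.pi (Finset.countable_toSet _) fun i _ => MeasurableSet.of_discrete

lemma lint_cons {F : (ℕ → Fin (m + 2)) → ℝ≥0∞} (hF : Measurable F) :
    ∫⁻ om, F om ∂(seqLaw m) = ((m : ℝ≥0∞) + 2)⁻¹ * ∑ v, ∫⁻ om, F (cons v om) ∂(seqLaw m) := by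
  conv_lhs => rw [← map_cons]
  rw [lintegral_map hF meas_cons,
    lintegral_prod (fun x : Fin (m + 2) × (ℕ → Fin (m + 2)) => F (cons x.1 x.2))
      (hF.comp meas_cons).aemeasurable, lintegral_fintype]
  rw [Finset.mul_sum]
  apply Finset.sum_congr rfl
  intro v _
  rw [mul_comm, PMF.toMeasure_apply_singleton _ _ (MeasurableSet.singleton v)]
  simp

lemma meas_traj (G : SimpleGraph (Fin (m + 2))) (p : ℝ) (t : ℕ) :
    ∀ f : Fin (m + 2) → ℝ, Measurable (fun om => traj G p f om t) := by
  induction t with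
  | zero => intro f; exact measurable_const
  | succ t ih =>
    intro f
    have h1 : (fun om => traj G p f om (t + 1))
        = (fun x : Fin (m + 2) × (ℕ → Fin (m + 2)) => traj G p (step G p f x.1) x.2 t) ∘
          (fun om : ℕ → Fin (m + 2) => (om 0, fun i => om (i + 1))) := by
      funext om
      simp only [Function.comp]
      rw [← traj_cons]
      congr 1
      funext i
      cases i <;> rfl
    rw [h1]
    apply Measurable.comp
    · exact measurable_from_prod_countable_right fun v => ih (step G p f v)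
    · apply Measurable.prodMk (measurable_pi_apply 0)
      rw [measurable_pi_iff]
      intro i
      exact measurable_pi_apply (i + 1)

lemma meas_osc : Measurable (fun f : Fin (m + 2) → ℝ => osc f) := by
  unfold osc
  apply Measurable.sub
  · exact Measurable.iSup fun i => measurable_pi_apply i
  · exact Measurable.iInf fun i => measurable_pi_apply i

lemma meas_tau (G : SimpleGraph (Fin (m + 2))) (p : ℝ) (f : Fin (m + 2) → ℝ) (eps : ℝ) :
    Measurable (tau G p f eps) := by
  unfold tau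
  apply Measurable.iInf
  intro t
  classical
  have h1 : (fun om => ⨅ (_ : osc (traj G p f om t) ≤ eps), (t : ℝ≥0∞))
      = fun om => if osc (traj G p f om t) ≤ eps then (t : ℝ≥0∞) else ⊤ := by
    funext om
    split_ifs with h
    · simp [h]
    · simp [h]
  rw [h1]
  apply Measurable.ite _ measurable_const measurable_const
  exact measurableSet_le (meas_osc.comp (meas_traj G p t f)) measurable_const

lemma tau_cons (G : SimpleGraph (Fin (m + 2))) (p : ℝ) (f : Fin (m + 2) → ℝ) (eps : ℝ)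
    (v : Fin (m + 2)) (om : ℕ → Fin (m + 2)) (h : ¬ osc f ≤ eps) :
    tau G p f eps (cons v om) = 1 + tau G p (step G p f v) eps om := by
  unfold tau
  apply le_antisymm
  · rw [ENNReal.add_iInf₂]
    refine le_iInf₂ fun t ht => ?_
    refine iInf₂_le_of_le (t + 1) (by rw [traj_cons]; exact ht) ?_
    push_cast
    rw [add_comm]
  · refine le_iInf₂ fun t ht => ?_
    cases t with
    | zero => exact absurd ht h
    | succ t =>
      rw [traj_cons] at ht
      push_cast
      rw [add_comm]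
      gcongr
      exact iInf₂_le t ht

/-- finite horizon version of the expected consensus time -/
noncomputable def HN (G : SimpleGraph (Fin (m + 2))) (p : ℝ) (eps : ℝ) (N : ℕ)
    (f : Fin (m + 2) → ℝ) : ℝ≥0∞ :=
  ∫⁻ om, min (tau G p f eps om) N ∂(seqLaw m)

lemma HN_le (G : SimpleGraph (Fin (m + 2))) (p : ℝ) (eps : ℝ) (N : ℕ)
    (f : Fin (m + 2) → ℝ) : HN G p eps N f ≤ N := by
  unfold HN
  calc ∫⁻ om, min (tau G p f eps om) N ∂(seqLaw m) ≤ ∫⁻ _, (N : ℝ≥0∞) ∂(seqLaw m) :=
        lintegral_mono fun om => min_le_right _ _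
    _ = N := by simp

lemma HN_ne_top (G : SimpleGraph (Fin (m + 2))) (p : ℝ) (eps : ℝ) (N : ℕ)
    (f : Fin (m + 2) → ℝ) : HN G p eps N f ≠ ⊤ :=
  ne_top_of_le_ne_top (ENNReal.natCast_ne_top N) (HN_le G p eps N f)

lemma HN_target (G : SimpleGraph (Fin (m + 2))) (p : ℝ) (eps : ℝ) (N : ℕ)
    (f : Fin (m + 2) → ℝ) (h : osc f ≤ eps) : HN G p eps N f = 0 := by
  unfold HN
  have h1 : ∀ om, min (tau G p f eps om) (N : ℝ≥0∞) = 0 := by
    intro om
    have : tau G p f eps om = 0 := by
      unfold tau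
      apply le_antisymm _ (zero_le)
      exact iInf₂_le_of_le 0 h (by simp)
    rw [this]; simp
  simp [h1]

lemma HN_succ (G : SimpleGraph (Fin (m + 2))) (p : ℝ) (eps : ℝ) (N : ℕ)
    (f : Fin (m + 2) → ℝ) (h : ¬ osc f ≤ eps) :
    HN G p eps (N + 1) f = 1 + ((m : ℝ≥0∞) + 2)⁻¹ * ∑ v, HN G p eps N (step G p f v) := by
  unfold HN
  rw [lint_cons (F := fun om => min (tau G p f eps om) ((N + 1 : ℕ) : ℝ≥0∞))
    ((meas_tau G p f eps).min measurable_const)]
  have h1 : ∀ v, ∫⁻ om, min (tau G p f eps (cons v om)) ((N + 1 : ℕ) : ℝ≥0∞) ∂(seqLaw m)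
      = 1 + ∫⁻ om, min (tau G p (step G p f v) eps om) (N : ℝ≥0∞) ∂(seqLaw m) := by
    intro v
    have h2 : ∀ om, min (tau G p f eps (cons v om)) ((N + 1 : ℕ) : ℝ≥0∞)
        = 1 + min (tau G p (step G p f v) eps om) (N : ℝ≥0∞) := by
      intro om
      rw [tau_cons G p f eps v om h]
      push_cast
      rw [add_comm (N : ℝ≥0∞) 1, min_add_add_left]
    simp_rw [h2]
    rw [lintegral_add_left measurable_const]
    simp
  simp_rw [h1]
  rw [Finset.sum_add_distrib, mul_add]
  congr 1
  simp only [Finset.sum_const, Finset.card_univ, Fintype.card_fin, nsmul_eq_mul, mul_one]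
  push_cast
  rw [ENNReal.inv_mul_cancel]
  · simp
  · exact ne_of_lt (by
      have : ((m : ℝ≥0∞) + 2) = ((m + 2 : ℕ) : ℝ≥0∞) := by push_cast; rfl
      rw [this]; exact ENNReal.natCast_lt_top _)

lemma ETau_eq (G : SimpleGraph (Fin (m + 2))) (p : ℝ) (eps : ℝ) (f : Fin (m + 2) → ℝ) :
    ETau G p f eps = ⨆ N : ℕ, HN G p eps N f := by
  unfold ETau HN
  rw [← lintegral_iSup]
  · apply lintegral_congr
    intro om
    apply le_antisymm
    · rcases eq_or_ne (tau G p f eps om) ⊤ with h | h
      · rw [h]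
        simp only [min_top_left]
        rw [ENNReal.iSup_natCast]
      · obtain ⟨N, hN⟩ := ENNReal.exists_nat_gt h
        exact le_iSup_of_le N (by rw [min_eq_left hN.le])
    · exact iSup_le fun N => min_le_left _ _
  · intro N
    exact (meas_tau G p f eps).min measurable_const
  · intro a b hab om
    exact min_le_min_left _ (by exact_mod_cast hab)

/-- real-valued finite horizon expectation -/
noncomputable def hN (G : SimpleGraph (Fin (m + 2))) (p : ℝ) (eps : ℝ) (N : ℕ)
    (f : Fin (m + 2) → ℝ) : ℝ := (HN G p eps N f).toReal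

lemma hN_nonneg (G : SimpleGraph (Fin (m + 2))) (p : ℝ) (eps : ℝ) (N : ℕ)
    (f : Fin (m + 2) → ℝ) : 0 ≤ hN G p eps N f := ENNReal.toReal_nonneg

lemma hN_le (G : SimpleGraph (Fin (m + 2))) (p : ℝ) (eps : ℝ) (N : ℕ)
    (f : Fin (m + 2) → ℝ) : hN G p eps N f ≤ N := by
  unfold hN
  have := ENNReal.toReal_mono (ENNReal.natCast_ne_top N) (HN_le G p eps N f)
  simpa using this

lemma hN_target (G : SimpleGraph (Fin (m + 2))) (p : ℝ) (eps : ℝ) (N : ℕ)
    (f : Fin (m + 2) → ℝ) (h : osc f ≤ eps) : hN G p eps N f = 0 := by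
  unfold hN; rw [HN_target G p eps N f h]; simp

lemma hN_succ (G : SimpleGraph (Fin (m + 2))) (p : ℝ) (eps : ℝ) (N : ℕ)
    (f : Fin (m + 2) → ℝ) (h : ¬ osc f ≤ eps) :
    hN G p eps (N + 1) f = 1 + ((m : ℝ) + 2)⁻¹ * ∑ v, hN G p eps N (step G p f v) := by
  unfold hN
  have hne : ∑ v, HN G p eps N (step G p f v) ≠ ⊤ := by
    rw [ENNReal.sum_ne_top]
    intro v _
    exact HN_ne_top _ _ _ _ _
  have hm : ((m : ℝ≥0∞) + 2)⁻¹ ≠ ⊤ := by simp
  rw [HN_succ G p eps N f h, ENNReal.toReal_add (by simp) (ENNReal.mul_ne_top hm hne),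
    ENNReal.toReal_mul, ENNReal.toReal_sum (fun v _ => HN_ne_top _ _ _ _ _), ENNReal.toReal_inv]
  congr 2

lemma hN_succ_le (G : SimpleGraph (Fin (m + 2))) (p : ℝ) (eps : ℝ) (N : ℕ)
    (f : Fin (m + 2) → ℝ) :
    hN G p eps (N + 1) f ≤ 1 + ((m : ℝ) + 2)⁻¹ * ∑ v, hN G p eps N (step G p f v) := by
  by_cases h : osc f ≤ eps
  · rw [hN_target _ _ _ _ _ h]
    have : 0 ≤ ∑ v, hN G p eps N (step G p f v) := Finset.sum_nonneg fun v _ => hN_nonneg _ _ _ _ _
    positivity
  · exact (hN_succ G p eps N f h).le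

lemma ETau_le (G : SimpleGraph (Fin (m + 2))) (p : ℝ) (eps : ℝ) (f : Fin (m + 2) → ℝ) (B : ℝ)
    (hB : ∀ N, hN G p eps N f ≤ B) : ETau G p f eps ≤ ENNReal.ofReal B := by
  rw [ETau_eq]
  apply iSup_le
  intro N
  rw [← ENNReal.ofReal_toReal (HN_ne_top G p eps N f)]
  exact ENNReal.ofReal_le_ofReal (hB N)

lemma le_ETau (G : SimpleGraph (Fin (m + 2))) (p : ℝ) (eps : ℝ) (f : Fin (m + 2) → ℝ) (N : ℕ) :
    ENNReal.ofReal (hN G p eps N f) ≤ ETau G p f eps := by
  rw [ETau_eq]
  refine le_iSup_of_le N ?_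
  unfold hN
  rw [ENNReal.ofReal_toReal (HN_ne_top G p eps N f)]

end Pool.Agent.R957.LpEn
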