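import Mathlib
import Pool.Agent.R957.LpEn.Rec
import Pool.Agent.R957.LpEn.Phi

namespace Pool.Agent.R957.LpEn

open Filter
open scoped ENNReal

/-- the complete graph on four vertices -/
abbrev K4 : SimpleGraph (Fin (2 + 2)) := ⊤

lemma adj_succ (v : Fin (2 + 2)) : K4.Adj v (v + 1) := by
  rw [SimpleGraph.top_adj]
  revert v; decide

lemma sum_AB : ∀ v s : Fin (2 + 2), s ≠ v → ∀ A B : ℝ,
    (∑ w, (if w = v then (0 : ℝ) else if w = s then A else B)) = A + 2 * B := by
  intro v s hs A B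
  rw [Fin.sum_univ_four]
  fin_cases v <;> fin_cases s <;> first | exact absurd rfl hs | (simp; try ring)

/-- lower bound for the first order sum when one neighbour is singled out -/
lemma sum_ge (g : Fin (2 + 2) → ℝ) (v s : Fin (2 + 2)) (hs : s ≠ v) (A B : ℝ) (hA : A ≤ g s)
    (hB : ∀ w, w ≠ v → w ≠ s → B ≤ g w) :
    A + 2 * B ≤ ∑ w, @ite ℝ (K4.Adj v w) (Classical.propDecidable _) (g w) 0 := by
  rw [← sum_AB v s hs A B]
  apply Finset.sum_le_sum
  intro w _
  by_cases hw : w = v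
  · have h1 : ¬ K4.Adj v w := by rw [SimpleGraph.top_adj]; exact fun h => h hw.symm
    rw [if_pos hw, if_neg h1]
  · have h1 : K4.Adj v w := by rw [SimpleGraph.top_adj]; exact fun h => hw h.symm
    rw [if_neg hw, if_pos h1]
    split_ifs with h2
    · rw [h2]; exact hA
    · exact hB w hw h2

lemma fin_facts : ∀ s : Fin (2 + 2), s + 1 ≠ s ∧ s + 2 ≠ s ∧ s + 3 ≠ s ∧ s + 1 ≠ s + 2 ∧
    s + 1 ≠ s + 3 ∧ s + 2 ≠ s + 3 ∧ ∀ w, w = s ∨ w = s + 1 ∨ w = s + 2 ∨ w = s + 3 := by
  decide

lemma newVal_le_max {p : ℝ} (hp : 1 < p) (f : Fin (2 + 2) → ℝ) (v : Fin (2 + 2)) (M : ℝ)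
    (hM : ∀ w, f w ≤ M) : newVal K4 p f v ≤ M := by
  classical
  apply newVal_le K4 hp f v (v + 1) (adj_succ v)
  apply Finset.sum_nonneg
  intro w _
  split_ifs
  · rw [← phi_zero p]; exact (phi_strictMono hp).monotone (by linarith [hM w])
  · exact le_refl _

lemma newVal_ge_min {p : ℝ} (hp : 1 < p) (f : Fin (2 + 2) → ℝ) (v : Fin (2 + 2)) (a : ℝ)
    (ha : ∀ w, a ≤ f w) : a ≤ newVal K4 p f v := by
  classical
  apply le_newVal K4 hp f v (v + 1) (adj_succ v)
  apply Finset.sum_nonpos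
  intro w _
  split_ifs
  · rw [← phi_zero p]; exact (phi_strictMono hp).monotone (by linarith [ha w])
  · exact le_refl _

/-- step stays within the bounds -/
lemma step_le {p : ℝ} (hp : 1 < p) (f : Fin (2 + 2) → ℝ) (v : Fin (2 + 2)) (M : ℝ)
    (hM : ∀ w, f w ≤ M) (w : Fin (2 + 2)) : step K4 p f v w ≤ M := by
  unfold step
  rw [Function.update_apply]
  split_ifs
  · exact newVal_le_max hp f v M hM
  · exact hM w

lemma le_step {p : ℝ} (hp : 1 < p) (f : Fin (2 + 2) → ℝ) (v : Fin (2 + 2)) (a : ℝ)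
    (ha : ∀ w, a ≤ f w) (w : Fin (2 + 2)) : a ≤ step K4 p f v w := by
  unfold step
  rw [Function.update_apply]
  split_ifs
  · exact newVal_ge_min hp f v a ha
  · exact ha w

/-- contraction of an updated value away from the maximum -/
lemma newVal_contract {p eta : ℝ} (hp : 1 < p) (h0 : 0 < eta) (h1 : eta ≤ 1)
    (he : 2 * eta ^ (p - 1) = 1)
    (f : Fin (2 + 2) → ℝ) (v s : Fin (2 + 2)) (hs : s ≠ v) (a M : ℝ) (haM : a ≤ M)
    (hM : ∀ w, f w ≤ M) (hfs : f s = a) : newVal K4 p f v ≤ M - eta / 2 * (M - a) := by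
  classical
  apply newVal_le K4 hp f v (v + 1) (adj_succ v)
  set c := M - eta / 2 * (M - a) with hc
  have ho : 0 ≤ M - a := by linarith
  have h2 := sum_ge (fun w => phi p (c - f w)) v s hs (phi p ((1 - eta / 2) * (M - a)))
    (- phi p (eta / 2 * (M - a))) (by
      apply (phi_strictMono hp).monotone
      rw [hfs, hc]; linarith) (by
      intro w _ _
      rw [← phi_neg]
      apply (phi_strictMono hp).monotone
      rw [hc]; linarith [hM w])
  refine le_trans ?_ h2
  have h3 : phi p (eta / 2 * (M - a)) ≤ phi p (eta * ((1 - eta / 2) * (M - a))) := by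
    apply (phi_strictMono hp).monotone
    have : eta / 2 ≤ eta * (1 - eta / 2) := by nlinarith
    calc eta / 2 * (M - a) ≤ eta * (1 - eta / 2) * (M - a) := mul_le_mul_of_nonneg_right this ho
      _ = _ := by ring
  have hb : 0 ≤ (1 - eta / 2) * (M - a) := mul_nonneg (by linarith) ho
  have h4 : phi p (eta * ((1 - eta / 2) * (M - a)))
      = eta ^ (p - 1) * phi p ((1 - eta / 2) * (M - a)) := by
    rw [phi_of_nonneg hp (mul_nonneg h0.le hb), phi_of_nonneg hp hb, Real.mul_rpow h0.le hb]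
  rw [h4] at h3
  have h5 : 2 * (eta ^ (p - 1) * phi p ((1 - eta / 2) * (M - a)))
      = phi p ((1 - eta / 2) * (M - a)) := by
    rw [← mul_assoc, he, one_mul]
  linarith

/-- three updates contract -/
lemma three_steps {p eta : ℝ} (hp : 1 < p) (h0 : 0 < eta) (h1 : eta ≤ 1)
    (he : 2 * eta ^ (p - 1) = 1) (f : Fin (2 + 2) → ℝ) (r : ℝ) (hf : osc f ≤ r) :
    ∃ a b c : Fin (2 + 2),
      osc (step K4 p (step K4 p (step K4 p f a) b) c) ≤ (1 - eta / 2) * r := by
  obtain ⟨s, -, hs⟩ := Finset.exists_min_image (Finset.univ : Finset (Fin (2 + 2))) f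
    ⟨0, Finset.mem_univ _⟩
  obtain ⟨u, -, hu⟩ := Finset.exists_max_image (Finset.univ : Finset (Fin (2 + 2))) f
    ⟨0, Finset.mem_univ _⟩
  set a := f s with ha
  set M := f u with hM
  have haM : a ≤ M := hs u (Finset.mem_univ _)
  have hmin : ∀ w, a ≤ f w := fun w => hs w (Finset.mem_univ _)
  have hmax : ∀ w, f w ≤ M := fun w => hu w (Finset.mem_univ _)
  have hr : M - a ≤ r := (osc_le_iff f r).1 hf u s
  obtain ⟨n1, n2, n3, n12, n13, n23, hcov⟩ := fin_facts s
  refine ⟨s + 1, s + 2, s + 3, ?_⟩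
  set c := M - eta / 2 * (M - a) with hc
  have hac : a ≤ c := by rw [hc]; nlinarith
  set f1 := step K4 p f (s + 1) with hf1
  set f2 := step K4 p f1 (s + 2) with hf2
  set f3 := step K4 p f2 (s + 3) with hf3
  have f1max : ∀ w, f1 w ≤ M := step_le hp f _ M hmax
  have f1min : ∀ w, a ≤ f1 w := le_step hp f _ a hmin
  have f2max : ∀ w, f2 w ≤ M := step_le hp f1 _ M f1max
  have f2min : ∀ w, a ≤ f2 w := le_step hp f1 _ a f1min
  have f3min : ∀ w, a ≤ f3 w := le_step hp f2 _ a f2min
  have f1s : f1 s = a := by rw [hf1, step, Function.update_apply, if_neg n1.symm]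
  have f2s : f2 s = a := by rw [hf2, step, Function.update_apply, if_neg n2.symm, f1s]
  have f3s : f3 s = a := by rw [hf3, step, Function.update_apply, if_neg n3.symm, f2s]
  have f11 : f1 (s + 1) ≤ c := by
    rw [hf1, step, Function.update_apply, if_pos rfl]
    exact newVal_contract hp h0 h1 he f _ s n1.symm a M haM hmax rfl
  have f21 : f2 (s + 1) ≤ c := by
    rw [hf2, step, Function.update_apply, if_neg n12]; exact f11
  have f31 : f3 (s + 1) ≤ c := by
    rw [hf3, step, Function.update_apply, if_neg n13]; exact f21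
  have f22 : f2 (s + 2) ≤ c := by
    rw [hf2, step, Function.update_apply, if_pos rfl]
    exact newVal_contract hp h0 h1 he f1 _ s n2.symm a M haM f1max f1s
  have f32 : f3 (s + 2) ≤ c := by
    rw [hf3, step, Function.update_apply, if_neg n23]; exact f22
  have f33 : f3 (s + 3) ≤ c := by
    rw [hf3, step, Function.update_apply, if_pos rfl]
    exact newVal_contract hp h0 h1 he f2 _ s n3.symm a M haM f2max f2s
  have f3max : ∀ w, f3 w ≤ c := by
    intro w
    rcases hcov w with h | h | h | h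
    · rw [h, f3s]; exact hac
    · rw [h]; exact f31
    · rw [h]; exact f32
    · rw [h]; exact f33
  rw [osc_le_iff]
  intro x y
  have e1 := f3max x
  have e2 := f3min y
  have e3 : c - a = (1 - eta / 2) * (M - a) := by rw [hc]; ring
  have e4 : (1 - eta / 2) * (M - a) ≤ (1 - eta / 2) * r :=
    mul_le_mul_of_nonneg_left hr (by linarith)
  linarith

lemma osc_step {p : ℝ} (hp : 1 < p) (f : Fin (2 + 2) → ℝ) (v : Fin (2 + 2)) (r : ℝ)
    (hf : osc f ≤ r) : osc (step K4 p f v) ≤ r := by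
  obtain ⟨s, -, hs⟩ := Finset.exists_min_image (Finset.univ : Finset (Fin (2 + 2))) f
    ⟨0, Finset.mem_univ _⟩
  obtain ⟨u, -, hu⟩ := Finset.exists_max_image (Finset.univ : Finset (Fin (2 + 2))) f
    ⟨0, Finset.mem_univ _⟩
  have h1 := step_le hp f v (f u) fun w => hu w (Finset.mem_univ _)
  have h2 := le_step hp f v (f s) fun w => hs w (Finset.mem_univ _)
  have h3 := (osc_le_iff f r).1 hf u s
  rw [osc_le_iff]
  intro x y
  linarith [h1 x, h2 y]

/-- an average over four with one small term -/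
lemma avg_one (g : Fin (2 + 2) → ℝ) (s : Fin (2 + 2)) (A B : ℝ) (hA : g s ≤ A)
    (hB : ∀ w, g w ≤ B) : 1 + ((2 : ℕ) + 2 : ℝ)⁻¹ * ∑ w, g w ≤ 1 + (A + 3 * B) / 4 := by
  rw [Fin.sum_univ_four]
  have h0 := hB 0
  have h1 := hB 1
  have h2 := hB 2
  have h3 := hB 3
  have : g 0 + g 1 + g 2 + g 3 ≤ A + 3 * B := by
    fin_cases s <;> simp at hA <;> linarith
  have h4 : (((2 : ℕ) : ℝ) + 2)⁻¹ = 1 / 4 := by norm_num
  rw [h4]
  linarith

/-- crude uniform bound -/
lemma crude {p eta eps : ℝ} (hp : 1 < p) (h0 : 0 < eta) (h1 : eta ≤ 1)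
    (he : 2 * eta ^ (p - 1) = 1) (j : ℕ) :
    ∀ (N : ℕ) (f : Fin (2 + 2) → ℝ) (r : ℝ), (1 - eta / 2) ^ j * r ≤ eps → osc f ≤ r →
      hN K4 p eps N f ≤ 84 * j := by
  induction j with
  | zero =>
    intro N f r hr hf
    rw [pow_zero, one_mul] at hr
    rw [hN_target K4 p eps N f (hf.trans hr)]
    simp
  | succ j ih =>
    intro N
    induction N using Nat.strong_induction_on with
    | _ N ihN =>
      intro f r hr hf
      rcases lt_or_ge N 3 with h3 | h3
      · have h := hN_le K4 p eps N f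
        have h4 : (N : ℝ) ≤ 3 := by exact_mod_cast h3.le
        have h5 : (0 : ℝ) ≤ j := Nat.cast_nonneg j
        push_cast
        linarith
      · obtain ⟨K, rfl⟩ : ∃ K, N = K + 3 := ⟨N - 3, by omega⟩
        obtain ⟨a, b, c, habc⟩ := three_steps hp h0 h1 he f r hf
        have hG : hN K4 p eps K (step K4 p (step K4 p (step K4 p f a) b) c) ≤ 84 * j := by
          apply ih K _ ((1 - eta / 2) * r) _ habc
          rw [← mul_assoc, ← pow_succ]; exact hr
        have hB : ∀ (L : ℕ) (g : Fin (2 + 2) → ℝ), L < K + 3 → osc g ≤ r →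
            hN K4 p eps L g ≤ 84 * ((j + 1 : ℕ) : ℝ) := fun L g hL hg => ihN L hL g r hr hg
        have s1 := osc_step hp f a r hf
        have s2 := osc_step hp _ b r s1
        have e2 : hN K4 p eps (K + 1) (step K4 p (step K4 p f a) b)
            ≤ 1 + (84 * j + 3 * (84 * ((j + 1 : ℕ) : ℝ))) / 4 :=
          (hN_succ_le _ _ _ _ _).trans (avg_one _ c _ _ hG
            fun w => hB K _ (by omega) (osc_step hp _ w r s2))
        have e1 : hN K4 p eps (K + 2) (step K4 p f a)
            ≤ 1 + ((1 + (84 * j + 3 * (84 * ((j + 1 : ℕ) : ℝ))) / 4)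
              + 3 * (84 * ((j + 1 : ℕ) : ℝ))) / 4 :=
          (hN_succ_le _ _ _ _ _).trans (avg_one _ b _ _ e2
            fun w => hB (K + 1) _ (by omega) (osc_step hp _ w r s1))
        have e0 := (hN_succ_le K4 p eps (K + 2) f).trans (avg_one _ a _ _ e1
            fun w => hB (K + 2) _ (by omega) (osc_step hp _ w r hf))
        refine e0.trans ?_
        push_cast
        linarith

end Pool.Agent.R957.LpEn
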