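import Mathlib
import Pool.Agent.R957.LpEn.K4

namespace Pool.Agent.R957.LpEn

open Filter
open scoped ENNReal Topology

/-- phase one: the special vertex has value one, the others are small -/
def Cls (eta : ℝ) (s : ℕ) (f : Fin (2 + 2) → ℝ) : Prop :=
  f 0 = 1 ∧ ∀ w, w ≠ 0 → 0 ≤ f w ∧ f w ≤ s * eta

lemma cls_nonneg {eta : ℝ} {s : ℕ} {f : Fin (2 + 2) → ℝ} (hf : Cls eta s f) : ∀ w, 0 ≤ f w := by
  intro w
  by_cases hw : w = 0
  · rw [hw, hf.1]; norm_num
  · exact (hf.2 w hw).1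

lemma cls_step {p eta : ℝ} (hp : 1 < p) (h0 : 0 < eta)
    (he : 2 * eta ^ (p - 1) = 1) (s : ℕ) (f : Fin (2 + 2) → ℝ) (hf : Cls eta s f)
    (v : Fin (2 + 2)) (hv : v ≠ 0) : Cls eta (s + 1) (step K4 p f v) := by
  have hnn := cls_nonneg hf
  obtain ⟨hf0, hfw⟩ := hf
  have hs : (0 : ℝ) ≤ s := Nat.cast_nonneg s
  refine ⟨?_, ?_⟩
  · unfold step; rw [Function.update_apply, if_neg hv.symm]; exact hf0
  · intro w hw
    refine ⟨le_step hp f v 0 hnn w, ?_⟩
    push_cast
    unfold step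
    rw [Function.update_apply]
    split_ifs with h
    · apply newVal_le K4 hp f v (v + 1) (adj_succ v)
      have h2 := sum_ge (fun w => phi p (((s : ℝ) + 1) * eta - f w)) v 0 hv.symm (-1)
        (eta ^ (p - 1)) (by
          have h3 : phi p (-1) = -1 := by
            rw [phi_neg, phi_of_nonneg hp (by norm_num), Real.one_rpow]
          rw [← h3]
          apply (phi_strictMono hp).monotone
          rw [hf0]
          have : 0 ≤ ((s : ℝ) + 1) * eta := by positivity
          linarith) (by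
          intro w _ hw0
          rw [← phi_of_nonneg hp h0.le]
          apply (phi_strictMono hp).monotone
          linarith [(hfw w hw0).2])
      linarith
    · have := (hfw w hw).2
      linarith

lemma cls_special {p eta : ℝ} (hp : 1 < p) (h0 : 0 < eta) (s : ℕ) (f : Fin (2 + 2) → ℝ)
    (hf : Cls eta s f) : osc (step K4 p f 0) ≤ s * eta := by
  have hnn := cls_nonneg hf
  have hs : (0 : ℝ) ≤ s * eta := by positivity
  have hle : ∀ w, step K4 p f 0 w ≤ s * eta := by
    intro w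
    unfold step
    rw [Function.update_apply]
    split_ifs with h
    · apply newVal_le K4 hp f 0 (0 + 1) (adj_succ 0)
      apply Finset.sum_nonneg
      intro w _
      split_ifs with h2
      · rw [← phi_zero p]
        apply (phi_strictMono hp).monotone
        have hw0 : w ≠ 0 := by
          rw [SimpleGraph.top_adj] at h2; exact h2.symm
        linarith [(hf.2 w hw0).2]
      · exact le_refl _
    · exact (hf.2 w h).2
  rw [osc_le_iff]
  intro x y
  linarith [hle x, le_step hp f 0 0 hnn y]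

lemma phase_one {p eta eps K : ℝ} (hp : 1 < p) (h0 : 0 < eta)
    (he : 2 * eta ^ (p - 1) = 1) (M : ℕ) (hM : M * eta ≤ eps) (heps : eps ≤ 1) (hK0 : 0 ≤ K)
    (hK : ∀ (N : ℕ) (g : Fin (2 + 2) → ℝ), osc g ≤ 1 → hN K4 p eps N g ≤ K) (d : ℕ) :
    ∀ (s N : ℕ) (f : Fin (2 + 2) → ℝ), s + d = M → Cls eta s f →
      hN K4 p eps N f ≤ 4 + K * (3 / 4) ^ d := by
  induction d with
  | zero =>
    intro s N f hs hf
    have h1 : (s : ℝ) * eta ≤ 1 := by
      rw [add_zero] at hs
      rw [hs]; linarith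
    have h2 := hK N f (by
      rw [osc_le_iff]
      intro x y
      have hy := cls_nonneg hf y
      by_cases hx : x = 0
      · rw [hx, hf.1]; linarith
      · linarith [(hf.2 x hx).2])
    rw [pow_zero, mul_one]; linarith
  | succ d ih =>
    intro s N f hs hf
    have hKd : 0 ≤ K * (3 / 4 : ℝ) ^ d := by positivity
    cases N with
    | zero =>
      have h1 := hN_le K4 p eps 0 f
      have : 0 ≤ K * (3 / 4 : ℝ) ^ (d + 1) := by positivity
      push_cast at h1
      linarith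
    | succ N =>
      have hz : hN K4 p eps N (step K4 p f 0) = 0 := by
        apply hN_target
        refine (cls_special hp h0 s f hf).trans (le_trans ?_ hM)
        have : (s : ℝ) ≤ M := by exact_mod_cast (by omega : s ≤ M)
        exact mul_le_mul_of_nonneg_right this h0.le
      have hb : ∀ w, hN K4 p eps N (step K4 p f w) ≤ 4 + K * (3 / 4) ^ d := by
        intro w
        by_cases hw : w = 0
        · rw [hw, hz]; linarith
        · exact ih (s + 1) N _ (by omega) (cls_step hp h0 he s f hf w hw)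
      have h1 := (hN_succ_le K4 p eps N f).trans (avg_one _ 0 0 _ hz.le hb)
      refine h1.trans ?_
      rw [pow_succ]
      linarith

/-- the initial profile -/
def f0 : Fin (2 + 2) → ℝ := fun v => if v = 0 then 1 else 0

lemma cls_f0 (eta : ℝ) : Cls eta 0 f0 := by
  refine ⟨by simp [f0], ?_⟩
  intro w hw
  simp [f0, hw]

/-- a good contraction count -/
lemma count (eta eps : ℝ) (h0 : 0 < eta) (h1 : eta ≤ 1) (heps : 0 < eps) (j : ℕ)
    (hj : 2 / (eta * eps) ≤ j) : (1 - eta / 2) ^ j ≤ eps := by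
  have hx : 0 ≤ eta / 2 := by linarith
  have h2 : 1 + (j : ℝ) * (eta / 2) ≤ (1 + eta / 2) ^ j := one_add_mul_le_pow (by linarith) j
  have h3 : (1 - eta / 2) ^ j * (1 + eta / 2) ^ j ≤ 1 := by
    rw [← mul_pow]
    apply pow_le_one₀
    · nlinarith
    · nlinarith
  have h4 : 1 / eps ≤ (j : ℝ) * (eta / 2) := by
    rw [div_le_iff₀ (by positivity)] at hj
    rw [div_le_iff₀ heps]
    linarith
  have h5 : 0 ≤ (1 - eta / 2) ^ j := by
    apply pow_nonneg; linarith
  have h6 : 1 / eps ≤ (1 + eta / 2) ^ j := by linarith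
  have h7 : (1 - eta / 2) ^ j * (1 / eps) ≤ 1 := (mul_le_mul_of_nonneg_left h6 h5).trans h3
  rw [mul_one_div, div_le_one heps] at h7
  exact h7

/-- for every `ε ∈ (0,1]` some exponent below `2` has expected consensus time at most `5` -/
lemma upper (eps : ℝ) (heps : 0 < eps) (heps1 : eps ≤ 1) :
    ∃ p : ℝ, 1 < p ∧ p < 2 ∧ ETau K4 p f0 eps ≤ ENNReal.ofReal 5 := by
  have t1 : Tendsto (fun M : ℕ => (M : ℝ) * (3 / 4 : ℝ) ^ M) atTop (𝓝 0) :=
    tendsto_self_mul_const_pow_of_lt_one (by norm_num) (by norm_num)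
  have t2 : Tendsto (fun M : ℕ => (3 / 4 : ℝ) ^ M) atTop (𝓝 0) :=
    tendsto_pow_atTop_nhds_zero_of_lt_one (by norm_num) (by norm_num)
  have t3 : Tendsto (fun M : ℕ => 84 * (2 / eps ^ 2 * ((M : ℝ) * (3 / 4 : ℝ) ^ M) + (3 / 4 : ℝ) ^ M))
      atTop (𝓝 0) := by
    have := ((t1.const_mul (2 / eps ^ 2)).add t2).const_mul 84
    simpa using this
  obtain ⟨M, hM1, hM3⟩ := ((t3.eventually (gt_mem_nhds (show (0 : ℝ) < 1 by norm_num))).and
    (eventually_ge_atTop 3)).exists
  have hMpos : (0 : ℝ) < M := by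
    have : 0 < M := by omega
    exact_mod_cast this
  have hM3' : (3 : ℝ) ≤ M := by exact_mod_cast hM3
  set eta : ℝ := eps / M with heta
  have he0 : 0 < eta := by positivity
  have he1 : eta ≤ 1 / 3 := by
    rw [heta, div_le_div_iff₀ hMpos (by norm_num)]; linarith
  have hlog : Real.log eta < - Real.log 2 := by
    rw [← Real.log_inv]
    exact Real.log_lt_log he0 (by norm_num; linarith)
  have hlog2 : 0 < Real.log 2 := Real.log_pos (by norm_num)
  set p : ℝ := 1 + Real.log 2 / (- Real.log eta) with hp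
  have hneg : 0 < - Real.log eta := by linarith
  have hp1 : 1 < p := by
    rw [hp]
    have : 0 < Real.log 2 / (- Real.log eta) := div_pos hlog2 hneg
    linarith
  have hp2 : p < 2 := by
    rw [hp]
    have : Real.log 2 / (- Real.log eta) < 1 := by
      rw [div_lt_one hneg]; linarith
    linarith
  have hee : 2 * eta ^ (p - 1) = 1 := by
    have h1 : p - 1 = Real.log 2 / (- Real.log eta) := by rw [hp]; ring
    rw [Real.rpow_def_of_pos he0, h1]
    have h2 : Real.log eta * (Real.log 2 / (- Real.log eta)) = - Real.log 2 := by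
      have : Real.log eta ≠ 0 := by linarith
      field_simp
    rw [h2, Real.exp_neg, Real.exp_log (by norm_num)]
    norm_num
  set j : ℕ := ⌈2 / (eta * eps)⌉₊ with hj
  have hj1 : 2 / (eta * eps) ≤ j := Nat.le_ceil _
  have hj2 : (j : ℝ) < 2 / (eta * eps) + 1 := Nat.ceil_lt_add_one (by positivity)
  have hcount := count eta eps he0 (by linarith) heps j hj1
  have hcr : ∀ (N : ℕ) (g : Fin (2 + 2) → ℝ), osc g ≤ 1 → hN K4 p eps N g ≤ 84 * j := by
    intro N g hg
    exact crude hp1 he0 (by linarith) hee j N g 1 (by rw [mul_one]; exact hcount) hg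
  refine ⟨p, hp1, hp2, ?_⟩
  apply ETau_le
  intro N
  have h1 := phase_one hp1 he0 hee M (by rw [heta]; field_simp; exact le_refl _) heps1
    (by positivity) hcr M 0 N f0 (by omega) (cls_f0 eta)
  refine h1.trans ?_
  have h2 : (84 * (j : ℝ)) * (3 / 4 : ℝ) ^ M ≤ 1 := by
    have h3 : (j : ℝ) ≤ 2 / eps ^ 2 * M + 1 := by
      have : 2 / (eta * eps) = 2 / eps ^ 2 * M := by rw [heta]; field_simp
      rw [this] at hj2; exact hj2.le
    have h4 : (0 : ℝ) ≤ (3 / 4 : ℝ) ^ M := by positivity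
    calc (84 * (j : ℝ)) * (3 / 4 : ℝ) ^ M ≤ (84 * (2 / eps ^ 2 * M + 1)) * (3 / 4 : ℝ) ^ M := by
          apply mul_le_mul_of_nonneg_right _ h4; linarith
      _ = 84 * (2 / eps ^ 2 * ((M : ℝ) * (3 / 4 : ℝ) ^ M) + (3 / 4 : ℝ) ^ M) := by ring
      _ ≤ 1 := hM1.le
  linarith

/-- spread after removing any single vertex -/
def Spr (del : ℝ) (f : Fin (2 + 2) → ℝ) : Prop :=
  ∀ v, ∃ u w, u ≠ v ∧ w ≠ v ∧ del < f u - f w

lemma newVal_two (f : Fin (2 + 2) → ℝ) (v : Fin (2 + 2)) :
    3 * newVal K4 2 f v = (∑ w, f w) - f v := by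
  have h := first_order K4 (by norm_num : (1 : ℝ) < 2) f v (v + 1) (adj_succ v)
  simp only [phi_two, SimpleGraph.top_adj] at h
  rw [Fin.sum_univ_four] at h ⊢
  generalize newVal K4 2 f v = y at *
  fin_cases v <;> simp at h ⊢ <;> linarith

/-- real-number core of the spread lemma -/
lemma core (del x b c y : ℝ) (hy : 3 * y = x + b + c) (_hd : 0 ≤ del)
    (h1 : y - b ≤ del) (h2 : b - y ≤ del) (h3 : y - c ≤ del) (h4 : c - y ≤ del)
    (h5 : b - c ≤ del) (h6 : c - b ≤ del) :
    (x - b ≤ 3 * del ∧ b - x ≤ 3 * del) ∧ (x - c ≤ 3 * del ∧ c - x ≤ 3 * del) := by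
  refine ⟨⟨?_, ?_⟩, ?_, ?_⟩ <;> linarith

lemma spr_step (del : ℝ) (hd : 0 ≤ del) (f : Fin (2 + 2) → ℝ) (hf : Spr (3 * del) f)
    (v : Fin (2 + 2)) : Spr del (step K4 2 f v) := by
  intro v'
  obtain ⟨u, w, hu, hw, huw⟩ := hf v
  by_cases hv : v' = v
  · refine ⟨u, w, by rw [hv]; exact hu, by rw [hv]; exact hw, ?_⟩
    unfold step
    rw [Function.update_apply, Function.update_apply, if_neg hu, if_neg hw]
    linarith
  · by_contra hcon
    push Not at hcon
    have hy := newVal_two f v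
    rw [Fin.sum_univ_four] at hy
    unfold step at hcon
    simp only [Function.update_apply] at hcon
    generalize newVal K4 2 f v = y at *
    -- the two remaining vertices
    have key : ∀ b c : Fin (2 + 2), b ≠ v → b ≠ v' → c ≠ v → c ≠ v' → b ≠ c → False := by
      intro b c hbv hbv' hcv hcv' hbc
      have hsum : 3 * y = f v' + f b + f c := by
        have hs : ∀ v v' b c : Fin (2 + 2), v' ≠ v → b ≠ v → b ≠ v' → c ≠ v → c ≠ v' → b ≠ c →
            f 0 + f 1 + f 2 + f 3 - f v = f v' + f b + f c := by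
          intro v v' b c
          fin_cases v <;> fin_cases v' <;> fin_cases b <;> fin_cases c <;> simp <;> ring
        rw [hy, ← hs v v' b c hv hbv hbv' hcv hcv' hbc]
      have h1 := hcon v b (fun h => hv h.symm) hbv'
      have h2 := hcon b v hbv' (fun h => hv h.symm)
      have h3 := hcon v c (fun h => hv h.symm) hcv'
      have h4 := hcon c v hcv' (fun h => hv h.symm)
      have h5 := hcon b c hbv' hcv'
      have h6 := hcon c b hcv' hbv'
      simp only [if_true, if_neg hbv, if_neg hcv] at h1 h2 h3 h4 h5 h6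
      obtain ⟨⟨k1, k2⟩, k3, k4⟩ := core del (f v') (f b) (f c) y hsum hd h1 h2 h3 h4 h5 h6
      have hcov : ∀ v v' b c x : Fin (2 + 2), v' ≠ v → b ≠ v → b ≠ v' → c ≠ v → c ≠ v' → b ≠ c →
          x ≠ v → x = v' ∨ x = b ∨ x = c := by decide
      have hx := hcov v v' b c u hv hbv hbv' hcv hcv' hbc hu
      have hz := hcov v v' b c w hv hbv hbv' hcv hcv' hbc hw
      rcases hx with rfl | rfl | rfl <;> rcases hz with rfl | rfl | rfl <;> linarith
    have hex : ∀ v v' : Fin (2 + 2), v' ≠ v → ∃ b c : Fin (2 + 2), b ≠ v ∧ b ≠ v' ∧ c ≠ v ∧ c ≠ v' ∧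
        b ≠ c := by decide
    obtain ⟨b, c, h1, h2, h3, h4, h5⟩ := hex v v' hv
    exact key b c h1 h2 h3 h4 h5

lemma spr_osc (del : ℝ) (f : Fin (2 + 2) → ℝ) (hf : Spr del f) : ¬ osc f ≤ del := by
  obtain ⟨u, w, -, -, h⟩ := hf 0
  intro hc
  linarith [(osc_le_iff f del).1 hc u w]

lemma spr_mono {a b : ℝ} (hab : a ≤ b) {f : Fin (2 + 2) → ℝ} (hf : Spr b f) : Spr a f := by
  intro v
  obtain ⟨u, w, h1, h2, h3⟩ := hf v
  exact ⟨u, w, h1, h2, by linarith⟩

lemma lower_aux (eps : ℝ) (heps : 0 < eps) (k : ℕ) : ∀ f : Fin (2 + 2) → ℝ, Spr (3 ^ k * eps) f →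
    ((k : ℝ) + 1) ≤ hN K4 2 eps (k + 1) f := by
  induction k with
  | zero =>
    intro f hf
    rw [pow_zero, one_mul] at hf
    rw [hN_succ K4 2 eps 0 f (spr_osc eps f hf)]
    have : 0 ≤ ∑ v, hN K4 2 eps 0 (step K4 2 f v) := Finset.sum_nonneg fun v _ => hN_nonneg _ _ _ _ _
    push_cast
    have h2 : 0 ≤ ((2 : ℝ) + 2)⁻¹ * ∑ v, hN K4 2 eps 0 (step K4 2 f v) := by positivity
    linarith
  | succ k ih =>
    intro f hf
    have h1 : Spr eps f := by
      apply spr_mono _ hf
      have : (1 : ℝ) ≤ 3 ^ (k + 1) := one_le_pow₀ (by norm_num)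
      nlinarith
    rw [hN_succ K4 2 eps (k + 1) f (spr_osc eps f h1)]
    have h2 : ∀ v, ((k : ℝ) + 1) ≤ hN K4 2 eps (k + 1) (step K4 2 f v) := by
      intro v
      apply ih
      apply spr_step _ (by positivity)
      rw [← mul_assoc, ← pow_succ']
      exact hf
    rw [Fin.sum_univ_four]
    have e0 := h2 0
    have e1 := h2 1
    have e2 := h2 2
    have e3 := h2 3
    push_cast
    norm_num
    linarith

lemma f0_step (v : Fin (2 + 2)) (hv : v ≠ 0) (del : ℝ) (hd : del < 1 / 3) :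
    Spr del (step K4 2 f0 v) := by
  have hy := newVal_two f0 v
  rw [Fin.sum_univ_four] at hy
  have hy1 : newVal K4 2 f0 v = 1 / 3 := by
    have : f0 v = 0 := by simp [f0, hv]
    rw [this] at hy
    simp [f0] at hy
    linarith
  intro v'
  unfold step
  rw [hy1]
  have hex : ∀ v v' : Fin (2 + 2), v ≠ 0 → ∃ u w : Fin (2 + 2), u ≠ v' ∧ w ≠ v' ∧ w ≠ v ∧ w ≠ 0 ∧
      (u = v ∨ u = 0) := by decide
  obtain ⟨u, w, h1, h2, h3, h4, h5⟩ := hex v v' hv
  refine ⟨u, w, h1, h2, ?_⟩
  rw [Function.update_apply, Function.update_apply, if_neg h3]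
  have hw0 : f0 w = 0 := by simp [f0, h4]
  rw [hw0]
  rcases h5 with h5 | h5
  · rw [if_pos h5]; linarith
  · rw [if_neg (by rw [h5]; exact hv.symm), h5]
    simp [f0]; linarith

lemma lower (k : ℕ) : ENNReal.ofReal (3 / 4 * ((k : ℝ) + 1)) ≤ ETau K4 2 f0 ((1 / 3) ^ (k + 2)) := by
  set eps : ℝ := (1 / 3) ^ (k + 2) with heps
  have heps0 : 0 < eps := by positivity
  refine le_trans (ENNReal.ofReal_le_ofReal ?_) (le_ETau K4 2 eps f0 (k + 2))
  have h1 : ¬ osc f0 ≤ eps := by
    intro h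
    have := (osc_le_iff f0 eps).1 h 0 1
    have h2 : eps < 1 := by
      rw [heps]; exact pow_lt_one₀ (by norm_num) (by norm_num) (by omega)
    simp [f0] at this
    linarith
  rw [hN_succ K4 2 eps (k + 1) f0 h1]
  have h2 : ∀ v, v ≠ 0 → ((k : ℝ) + 1) ≤ hN K4 2 eps (k + 1) (step K4 2 f0 v) := by
    intro v hv
    apply lower_aux eps heps0 k
    apply f0_step v hv
    have : (3 : ℝ) ^ k * eps = 1 / 9 := by
      rw [heps, pow_add, ← mul_assoc, ← mul_pow]; norm_num
    rw [this]; norm_num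
  rw [Fin.sum_univ_four]
  have e0 := hN_nonneg K4 2 eps (k + 1) (step K4 2 f0 0)
  have e1 := h2 1 (by decide)
  have e2 := h2 2 (by decide)
  have e3 := h2 3 (by decide)
  push_cast
  norm_num
  linarith

/-- main result -/
theorem main (C : ℝ) : ∃ f : Fin (2 + 2) → ℝ, (∀ v, 0 ≤ f v ∧ f v ≤ 1) ∧ ∃ eps : ℝ, 0 < eps ∧
    ∃ p1 p2 : ℝ, 1 < p1 ∧ p1 < p2 ∧
      ENNReal.ofReal C * ETau K4 p1 f eps < ETau K4 p2 f eps := by
  obtain ⟨k, hk⟩ := exists_nat_gt (20 / 3 * |C|)
  obtain ⟨p, hp1, hp2, hp⟩ := upper ((1 / 3) ^ (k + 2)) (by positivity)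
    (pow_le_one₀ (by norm_num) (by norm_num))
  refine ⟨f0, ?_, (1 / 3) ^ (k + 2), by positivity, p, 2, hp1, hp2, ?_⟩
  · intro v; unfold f0; split_ifs <;> norm_num
  · refine lt_of_lt_of_le ?_ (lower k)
    calc ENNReal.ofReal C * ETau K4 p f0 ((1 / 3) ^ (k + 2))
        ≤ ENNReal.ofReal |C| * ENNReal.ofReal 5 := by
          gcongr
          exact le_abs_self C
      _ = ENNReal.ofReal (|C| * 5) := (ENNReal.ofReal_mul (abs_nonneg C)).symm
      _ < ENNReal.ofReal (3 / 4 * ((k : ℝ) + 1)) := by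
          rw [ENNReal.ofReal_lt_ofReal_iff (by positivity)]
          linarith

end Pool.Agent.R957.LpEn
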